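import Pool.Agent.L7h91.CUT.All2

set_option autoImplicit false

/-!
# All multiplicities: general fat points in `ℙ^r` impose maximal conditions unless `d ^ r` is close to `∑ (m i) ^ r`

Let `r ≥ 3` and `C = (2 r + 1) 4 ^ r`. For **all** numbers `k` and **all** multiplicities `m 1, …, m k ≤ M`, and for `k`
general points of `ℙ^r` (one nonempty Zariski open set for all degrees `d`):

* if `d ^ r < ∑ (m i) ^ r - C M ^ r`, then there is no nonzero form of degree `d` which vanishes to order at least
  `m i` at the `i`-th point for all `i`. So a hypersurface of degree `d` with the multiplicities `m i` at general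
  points satisfies the inequality of Nagata type `∑ (m i) ^ r ≤ d ^ r + C (max m i) ^ r`;
* if `d ^ r ≥ ∑ (m i + 2 r) ^ r + C (M + 2 r) ^ r`, then the fat point scheme imposes independent conditions in
  degree `d`;
* in **every** degree `d` the dimension of the space of the forms is the expected one, `max 0 naive`, up to an error of at most
  `(∑ ((m i + r - 1) ^ r - (m i) ^ r) + C M ^ r) / r!`.

So a scheme of general fat points can fail to impose maximal conditions in degree `d` only if
`∑ (m i) ^ r - C M ^ r ≤ d ^ r < ∑ (m i + 2 r) ^ r + C (M + 2 r) ^ r`. There is no assumption on the number of the points,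
on the sizes of the multiplicities or on their ratios. The error term `M ^ r` has the best possible order in all the
inequalities (for `r = 3` there is a quadric through nine general points, so its multiples give
`d ^ 3 = ∑ (m i) ^ 3 - M ^ 3`; two points of multiplicity `M` do not impose independent conditions in degree `2 M - 2`).

The result `AsymptoticRange` of the library has, for every `ε > 0`, the range `∑ (m i) ^ r > (1 + ε) d ^ r`
for `m i ≤ σ d`, where `σ` is not comparable with `ε` (in the explicit version of the first part `ε` is of the order of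
`√σ` at best); here `ε = C σ ^ r`, and the corresponding for the second part.

The proof. The multiplicities are first lowered (raised) so that every value `μ` is attained at least `3 (4 M / μ) ^ (r - 1)`
times, at the cost of `C M ^ r` for the sum of the `r`-th powers: we go through the possible values, and points with a
multiplicity which is attained too seldom are moved to the neighbouring value. Then the sharp inequality is shown for
such multiplicities. We pass from the forms of degree `d` to Laurent polynomials with exponents in a simplex. The simplex is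
first flattened by an integral factor `a` in all the directions, then it is cut by hyperplanes through a
face of codimension two into one simplex for each value of the multiplicities, and each of these simplices is flattened
further (with slopes of any sign) until its slopes are equal to the number of the points with this multiplicity. The
bound in every degree follows, since the number of the independent conditions does not decrease with the degree.
-/

namespace Pool.Agent.Results.MP_1dafdd_ag.AllMultiplicities

open MvPolynomial
open scoped LinearAlgebra.Projectivization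
open Pool.Agent.H350R3.MG

/-- `V_d(Γ)`: the forms of degree `d` vanishing to order at least `m i` at the `i`-th point. -/
noncomputable def forms {r k : ℕ} (d : ℕ) (m : Fin k → ℕ) (P : Fin k → ℙ ℂ (Fin (r + 1) → ℂ)) :
    Submodule ℂ (MvPolynomial (Fin (r + 1)) ℂ) :=
  homogeneousSubmodule (Fin (r + 1)) ℂ d ⊓
    Submodule.restrictScalars ℂ (⨅ i, primeIdeal (P i) ^ m i : Ideal (MvPolynomial (Fin (r + 1)) ℂ))

/-- The naive count `binom (d + r) r - ∑ i, binom (m i + r - 1) r`. -/
def naive (r : ℕ) {k : ℕ} (d : ℕ) (m : Fin k → ℕ) : ℤ :=
  ((d + r).choose r : ℤ) - ∑ i, ((m i + r - 1).choose r : ℤ)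

/-- `Γ` imposes maximal conditions in degree `d`. -/
def ImposesMaximalConditions {r k : ℕ} (d : ℕ) (m : Fin k → ℕ)
    (P : Fin k → ℙ ℂ (Fin (r + 1) → ℂ)) : Prop :=
  (Module.finrank ℂ (forms d m P) : ℤ) = max 0 (naive r d m)

/-- The constant `(2 r + 1) 4 ^ r`. -/
def C (r : ℕ) : ℕ := (2 * r + 1) * 4 ^ r

/-- For `r ≥ 3`, all `k`, all multiplicities `m 1, …, m k ≤ M` and `k` general points of `ℙ^r`, for every `d`:
there are no forms, and the conditions are maximal, if `d ^ r + C M ^ r < ∑ (m i) ^ r`; the conditions are
independent if `∑ (m i + 2 r) ^ r + C (M + 2 r) ^ r ≤ d ^ r`; so the scheme fails to impose maximal conditions only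
if `∑ (m i) ^ r ≤ d ^ r + C M ^ r` and `d ^ r < ∑ (m i + 2 r) ^ r + C (M + 2 r) ^ r`. In every degree the dimension of
the space of the forms exceeds the expected dimension by at most `(∑ ((m i + r - 1) ^ r - (m i) ^ r) + C M ^ r) / r!`. -/
theorem result (r k : ℕ) (hr : 3 ≤ r) (m : Fin k → ℕ) (M : ℕ) (hM : ∀ i, m i ≤ M) :
    Generally (fun P : Fin k → ℙ ℂ (Fin (r + 1) → ℂ) => ∀ d : ℕ,
      (d ^ r + C r * M ^ r < ∑ i, m i ^ r →
        forms d m P = ⊥ ∧ ImposesMaximalConditions d m P) ∧
      (∑ i, (m i + 2 * r) ^ r + C r * (M + 2 * r) ^ r ≤ d ^ r →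
        (Module.finrank ℂ (forms d m P) : ℤ) = naive r d m ∧ ImposesMaximalConditions d m P) ∧
      (¬ ImposesMaximalConditions d m P → ∑ i, m i ^ r ≤ d ^ r + C r * M ^ r ∧
        d ^ r < ∑ i, (m i + 2 * r) ^ r + C r * (M + 2 * r) ^ r) ∧
      (r.factorial : ℤ) * Module.finrank ℂ (forms d m P) ≤
        r.factorial * max 0 (naive r d m) +
          (∑ i, ((m i + r - 1 : ℕ) : ℤ) ^ r - ∑ i, (m i : ℤ) ^ r + C r * (M : ℤ) ^ r)) := by
  obtain ⟨U, hU, hU', h⟩ := L7h91.CUT.mainU2 hr m hM
  refine ⟨U, hU, hU', fun P hP d => ?_⟩
  obtain ⟨h1, h2, h0⟩ := h P hP d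
  have e : ∑ i, ((m i + r - 1).choose r : ℤ) = ((∑ i, (m i + r - 1).choose r : ℕ) : ℤ) := by
    push_cast
    rfl
  have c1 : d ^ r + C r * M ^ r < ∑ i, m i ^ r →
      forms d m P = ⊥ ∧ ImposesMaximalConditions d m P := by
    intro hd
    obtain ⟨h3, h4⟩ := h1 hd
    have h5 : forms d m P = ⊥ := h3
    refine ⟨h5, ?_⟩
    unfold ImposesMaximalConditions naive
    rw [h5, finrank_bot, e]
    omega
  have c2 : ∑ i, (m i + 2 * r) ^ r + C r * (M + 2 * r) ^ r ≤ d ^ r →
      (Module.finrank ℂ (forms d m P) : ℤ) = naive r d m ∧ ImposesMaximalConditions d m P := by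
    intro hd
    have h3 : ∑ i, (m i + r - 1).choose r + Module.finrank ℂ ↥(forms d m P) =
        (d + r).choose r := h2 hd
    unfold ImposesMaximalConditions naive
    rw [e]
    omega
  refine ⟨c1, c2, fun hn => ⟨?_, ?_⟩, ?_⟩
  · by_contra hcon
    push Not at hcon
    exact hn (c1 hcon).2
  · by_contra hcon
    push Not at hcon
    exact hn (c2 hcon).2
  · have hmono : ∑ i, (m i : ℤ) ^ r ≤ ∑ i, ((m i + r - 1 : ℕ) : ℤ) ^ r := by
      refine Finset.sum_le_sum fun i _ => ?_
      exact pow_le_pow_left₀ (Int.natCast_nonneg _) (by omega) r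
    have hC : (0 : ℤ) ≤ C r * (M : ℤ) ^ r := by positivity
    have hf : (0 : ℤ) ≤ r.factorial := Int.natCast_nonneg _
    rcases h0 with h0 | h0
    · have h3 : Module.finrank ℂ ↥(forms d m P) = 0 := h0
      rw [h3, Nat.cast_zero, mul_zero]
      have h4 : (0 : ℤ) ≤ r.factorial * max 0 (naive r d m) := mul_nonneg hf (le_max_left _ _)
      linarith
    · have h3 : ((r.factorial * Module.finrank ℂ ↥(forms d m P) + ∑ i, m i ^ r : ℕ) : ℤ) ≤
          ((r.factorial * (d + r).choose r + C r * M ^ r : ℕ) : ℤ) := by
        exact_mod_cast h0
      push_cast at h3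
      have h4 : (r.factorial : ℤ) * naive r d m ≤ r.factorial * max 0 (naive r d m) :=
        mul_le_mul_of_nonneg_left (le_max_right _ _) hf
      have h5 : (r.factorial : ℤ) * ∑ i, ((m i + r - 1).choose r : ℤ) ≤
          ∑ i, ((m i + r - 1 : ℕ) : ℤ) ^ r := by
        rw [Finset.mul_sum]
        refine Finset.sum_le_sum fun i _ => ?_
        exact_mod_cast L7h91.CUT.fact_le (m i) r
      have h6 : (r.factorial : ℤ) * naive r d m = r.factorial * ((d + r).choose r : ℤ) -
          r.factorial * ∑ i, ((m i + r - 1).choose r : ℤ) := by
        unfold naive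
        ring
      linarith

end Pool.Agent.Results.MP_1dafdd_ag.AllMultiplicities
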