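import Pool.Agent.L7h91.CUT.Cls2

set_option autoImplicit false

/-!
# General fat points of projective space with real weights every value of which occurs often: sharp inequalities

Let `r ≥ 3` and let `m 1, …, m k` be arbitrary. Let `v 1, …, v k ≥ 0` be arbitrary real weights of the points
such that `∑ (v i) ^ r ≤ 1` and such that for some integer `a ≥ 1` every positive value `v` occurs often: if `v > 0` is the weight
of exactly `n ≥ 1` of the points, then `a v < 1 / 2` and `n (a v) ^ (r - 1) ≥ 3` (if `a = 1`, then
`2 + n v ^ (2 r - 3) / 4 < n v ^ (r - 1)` is also sufficient). For `k` general points of `ℙ^r` (one nonempty Zariski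
open set for all degrees `d` and all weights):

* if `d < ∑ (v i) ^ (r - 1) * m i`, then there is no nonzero form of degree `d` which vanishes to order at least
  `m i` at the `i`-th point for all `i`, and the fat point scheme imposes maximal conditions. If
  `∑ (v i) ^ r = 1`, this is the best possible inequality of this kind: it is the tangent hyperplane to
  `∑ (m i) ^ r = d ^ r` in the direction `v`;
* if `m i + 2 r ≤ v i * d` for all `i`, then the fat point scheme imposes independent (hence maximal) conditions
  in degree `d`.

The integer `a` can be chosen if every positive value `v` of the weights occurs at least `3 (4 V / v) ^ (r - 1)` times, where `V`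
is the largest weight. So a number of points of each kind is sufficient that depends on the ratios of the
weights only. In general let the points be divided into classes in any way, and let `μ i` be the average and `M i` the
maximal multiplicity of the class of the `i`-th point, which has `n i` members. If
`n i * (μ i) ^ (r - 1) ≥ 3 (4 (M j + 2 r)) ^ (r - 1)` for all `i` and `j`, then the scheme can fail to impose maximal
conditions only in degrees `d` with `(∑ (μ i) ^ r) ^ (1 / r) ≤ d < (∑ (M i + 2 r) ^ r) ^ (1 / r)`. If
`M i ≤ μ i + δ`, then the length of this window is at most `k ^ (1 / r) * (2 r + δ)`, however large the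
multiplicities are. There may be many classes. (For all multiplicities together, with a larger error,
see `AllMultiplicities`.) The result `SubdivisionWeights` of the library needs weights from a countable set: they come from
subdivisions into `s ≥ 3 ^ r` or `s = t ^ r` equal parts. `TwoPowerWindow` is about equal weights.

The proof passes from forms of degree `d` to Laurent polynomials with exponents in a simplex. The simplex is first
flattened by the factor `a` in all the directions and then cut by hyperplanes through a face of codimension two into one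
simplex for each value of the weights; each of them is flattened further, with slopes of any sign, until its
slopes are equal to the number of the points with this weight.
-/

namespace Pool.Agent.Results.MP_1dafdd_ag.FrequentWeights

open MvPolynomial
open scoped LinearAlgebra.Projectivization
open Pool.Agent.H350R3.MG

/-- `V_d(Γ)`: the forms of degree `d` vanishing to order at least `m i` at the `i`-th point. -/
noncomputable def forms {r k : ℕ} (d : ℕ) (m : Fin k → ℕ) (P : Fin k → ℙ ℂ (Fin (r + 1) → ℂ)) :
    Submodule ℂ (MvPolynomial (Fin (r + 1)) ℂ) :=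
  homogeneousSubmodule (Fin (r + 1)) ℂ d ⊓
    Submodule.restrictScalars ℂ (⨅ i, primeIdeal (P i) ^ m i : Ideal (MvPolynomial (Fin (r + 1)) ℂ))

/-- The naive count `binom (d + r) r - ∑ i, binom (m i + r - 1) r`. -/
def naive (r : ℕ) {k : ℕ} (d : ℕ) (m : Fin k → ℕ) : ℤ :=
  ((d + r).choose r : ℤ) - ∑ i, ((m i + r - 1).choose r : ℤ)

/-- `Γ` imposes maximal conditions in degree `d`. -/
def ImposesMaximalConditions {r k : ℕ} (d : ℕ) (m : Fin k → ℕ)
    (P : Fin k → ℙ ℂ (Fin (r + 1) → ℂ)) : Prop :=
  (Module.finrank ℂ (forms d m P) : ℤ) = max 0 (naive r d m)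

/-- The number of the points with the same weight as the `i`-th point. -/
noncomputable def count {k : ℕ} (v : Fin k → ℝ) (i : Fin k) : ℕ := Set.ncard {j | v j = v i}

/-- The allowed weights: `v i ≥ 0`, `∑ v i ^ r ≤ 1`, and for some integer `a ≥ 1` every positive value `v`,
attained `n` times, satisfies `a v < 1 / 2` and `3 ≤ n (a v) ^ (r - 1)` (or `a = 1` and
`2 + n v ^ (2 r - 3) / 4 < n v ^ (r - 1)`). -/
def Weights (r : ℕ) {k : ℕ} (v : Fin k → ℝ) : Prop :=
  (∀ i, 0 ≤ v i) ∧ ∑ i, v i ^ r ≤ 1 ∧ ∃ a : ℕ, 1 ≤ a ∧ ∀ i, 0 < v i →
    ((a * v i < 1 / 2 ∧ 3 ≤ (count v i : ℝ) * (a * v i) ^ (r - 1)) ∨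
      (a = 1 ∧
        2 + (count v i : ℝ) * v i ^ (2 * r - 3) / 4 < (count v i : ℝ) * v i ^ (r - 1)))

/-- The class of the `i`-th point, if two points are in the same class whenever they have the same label
`g`. -/
def points {k : ℕ} (g : Fin k → Fin k) (i : Fin k) : Finset (Fin k) :=
  Finset.univ.filter (fun j => g j = g i)

/-- The average multiplicity of the class of the `i`-th point. -/
noncomputable def average {k : ℕ} (g : Fin k → Fin k) (m : Fin k → ℕ) (i : Fin k) : ℝ :=
  (∑ j ∈ points g i, (m j : ℝ)) / (points g i).card

/-- The maximal multiplicity of the class of the `i`-th point. -/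
def maximum {k : ℕ} (g : Fin k → Fin k) (m : Fin k → ℕ) (i : Fin k) : ℕ := (points g i).sup m

/-- The number `(∑ (u i) ^ r) ^ (1 / r)`. -/
noncomputable def size (r : ℕ) {k : ℕ} (u : Fin k → ℝ) : ℝ := (∑ i, u i ^ r) ^ (1 / (r : ℝ))

/-- Every class of the points is large: if it has `n` members and the average multiplicity `μ`, then
`n * μ ^ (r - 1) ≥ 3 * (4 * (M + 2 r)) ^ (r - 1)` for all multiplicities `M`. -/
def LargeClasses (r : ℕ) {k : ℕ} (g : Fin k → Fin k) (m : Fin k → ℕ) : Prop :=
  ∀ i j, 3 * (4 * ((maximum g m j : ℝ) + 2 * r)) ^ (r - 1) ≤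
    ((points g i).card : ℝ) * average g m i ^ (r - 1)

/-- For `r ≥ 3`, arbitrary multiplicities and `k` general points of `ℙ^r`, for every `d`: for all weights
`v` every positive value of which occurs often there are no forms, and the conditions are maximal, if
`d < ∑ (v i) ^ (r - 1) * m i`, and the conditions are independent if `m i + 2 r ≤ v i * d` for
all `i`. If the points are divided into large classes with averages `μ i` and maxima `M i`, then the conditions are
maximal outside the window `(∑ (μ i) ^ r) ^ (1 / r) ≤ d < (∑ (M i + 2 r) ^ r) ^ (1 / r)`,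
whose length is at most `k ^ (1 / r) * (2 r + δ)` if `M i ≤ μ i + δ` for all `i`. -/
theorem result (r k : ℕ) (hr : 3 ≤ r) (m : Fin k → ℕ) :
    Generally (fun P : Fin k → ℙ ℂ (Fin (r + 1) → ℂ) => ∀ d : ℕ,
      (∀ v : Fin k → ℝ, Weights r v →
        ((d : ℝ) < ∑ i, v i ^ (r - 1) * m i →
          forms d m P = ⊥ ∧ ImposesMaximalConditions d m P) ∧
        ((∀ i, (m i : ℝ) + 2 * r ≤ v i * d) →
          (Module.finrank ℂ (forms d m P) : ℤ) = naive r d m ∧ ImposesMaximalConditions d m P)) ∧
      (∀ g : Fin k → Fin k, LargeClasses r g m → ¬ ImposesMaximalConditions d m P →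
        size r (average g m) ≤ d ∧
          (d : ℝ) < size r (fun i => (maximum g m i : ℝ) + 2 * r))) ∧
    (∀ (g : Fin k → Fin k) (δ : ℝ), (∀ i, (maximum g m i : ℝ) ≤ average g m i + δ) →
      size r (fun i => (maximum g m i : ℝ) + 2 * r) ≤
        size r (average g m) + (k : ℝ) ^ (1 / (r : ℝ)) * (2 * r + δ)) := by
  refine ⟨?_, fun g δ h => ?_⟩
  swap
  · have h1 := L7h91.CUT.window2 (r := r) (by omega) m g (δ := δ) h
    rw [mul_comm (2 * (r : ℝ) + δ)] at h1
    exact h1
  obtain ⟨U, hU, hU', h⟩ := L7h91.CUT.mainA hr m
  refine ⟨U, hU, hU', fun P hP d => ?_⟩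
  have e : ∑ i, ((m i + r - 1).choose r : ℤ) = ((∑ i, (m i + r - 1).choose r : ℕ) : ℤ) := by
    push_cast
    rfl
  have c : ∀ v : Fin k → ℝ, Weights r v →
        ((d : ℝ) < ∑ i, v i ^ (r - 1) * m i →
          forms d m P = ⊥ ∧ ImposesMaximalConditions d m P) ∧
        ((∀ i, (m i : ℝ) + 2 * r ≤ v i * d) →
          (Module.finrank ℂ (forms d m P) : ℤ) = naive r d m ∧
            ImposesMaximalConditions d m P) := by
    intro v hv
    obtain ⟨h1, h2⟩ := h P hP d v hv
    constructor
    · intro hd
      obtain ⟨h3, h4⟩ := h1 hd
      have h5 : forms d m P = ⊥ := h3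
      refine ⟨h5, ?_⟩
      unfold ImposesMaximalConditions naive
      rw [h5, finrank_bot, e]
      omega
    · intro hd
      have h3 : ∑ i, (m i + r - 1).choose r + Module.finrank ℂ ↥(forms d m P) =
          (d + r).choose r := h2 hd
      unfold ImposesMaximalConditions naive
      rw [e]
      omega
  refine ⟨c, fun g hf hn => ⟨?_, ?_⟩⟩
  · by_contra hcon
    push Not at hcon
    obtain ⟨v, hv, hd⟩ := (L7h91.CUT.freq3 hr m g hf d).1 hcon
    exact hn ((c v hv).1 hd).2
  · by_contra hcon
    push Not at hcon
    obtain ⟨v, hv, hd⟩ := (L7h91.CUT.freq3 hr m g hf d).2 hcon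
    exact hn ((c v hv).2 hd).2

end Pool.Agent.Results.MP_1dafdd_ag.FrequentWeights
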