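import Mathlib
import Pool.Agent.L7h43.NU.End
import Pool.Agent.L7h52.AM.Near
import Pool.Agent.L7h52.AM.CntW
import Pool.Agent.L7h88.VG.Dim
import Pool.Agent.TH469.SX.TwentyOneNear

set_option autoImplicit false

/-!
# The plane: multiplicities `m` and `m + 1` at 17 to 35 points

Let `17 ≤ n ≤ 35`, `n ≠ 25`, or `n = 20 * 4 ^ j`. Schemes of `n` points of the plane with multiplicities `m`,
`m + 1` of sum `W` impose maximal conditions in all degrees outside a window `Gap n W` of at most one degree. For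
`n = 20 * 4 ^ j`, for `n = 24` and even `W`, and for `n = 29` and equal multiplicities the window is empty:
maximal conditions in EVERY degree. For the other `n` it is empty for all `W` outside a set of upper density
`rho n`: `0.199` for `n = 18`, `0.202` (17), `0.147` (29), `0.228` (26), `0.244` (27), and so on; in the library
(`PlaneNearUniformLongIntervals`) the density is `0.88` to `0.96`, for all these `n`. The window is also empty
for `n = 21` and `3 ∣ W`; this is the library's result `TwentyOneNearUniform` (`MP_6ec8e4_ag`).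

The proofs use tubes around rational quartics and quintics, and for 20 and 29 points rows of the flattened
block with fewer exponents than conditions.
-/

namespace Pool.Agent.Results.MP_1dafdd_ag.PlaneSeventeenToThirtyFive

open MvPolynomial

/-- Forms of degree `d` vanishing to order at least `w i` at the points `(P i 0 : P i 1 : 1)`. -/
noncomputable def forms {n : ℕ} (P : Fin n → Fin 2 → ℂ) (d : ℕ) (w : Fin n → ℕ) :
    Submodule ℂ (MvPolynomial (Fin 3) ℂ) :=
  homogeneousSubmodule (Fin 3) ℂ d ⊓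
    Submodule.restrictScalars ℂ
      (⨅ i : Fin n, (Ideal.span {X 0 - C (P i 0) * X 2, X 1 - C (P i 1) * X 2} :
        Ideal (MvPolynomial (Fin 3) ℂ)) ^ (w i))

/-- The scheme of the points `P i` with the multiplicities `w i` imposes maximal conditions in the
degree `d`. -/
def Imposes {n : ℕ} (P : Fin n → Fin 2 → ℂ) (d : ℕ) (w : Fin n → ℕ) : Prop :=
  (Module.finrank ℂ ↥(forms P d w) : ℤ) =
    max 0 (((d + 2).choose 2 : ℤ) - ∑ i, ((w i + 1).choose 2 : ℤ))

/-- Maximal conditions in all degrees of the set `D`, for all points `P` of one nonempty open set and for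
all points `P` with algebraically independent coordinates. -/
def Generally {n : ℕ} (w : Fin n → ℕ) (D : Set ℕ) : Prop :=
  (∃ F : MvPolynomial (Fin n × Fin 2) ℂ, F ≠ 0 ∧ ∀ P : Fin n → Fin 2 → ℂ,
    eval (fun ij : Fin n × Fin 2 => P ij.1 ij.2) F ≠ 0 → ∀ d ∈ D, Imposes P d w) ∧
  ∀ P : Fin n → Fin 2 → ℂ, AlgebraicIndependent ℚ (fun ij : Fin n × Fin 2 => P ij.1 ij.2) →
    ∀ d ∈ D, Imposes P d w

/-- Vectors of positive multiplicities `m`, `m + 1` of sum `W`. -/
def Near {n : ℕ} (W : ℕ) (w : Fin n → ℕ) : Prop :=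
  (∃ m : ℕ, 0 < m ∧ ∀ i, w i = m ∨ w i = m + 1) ∧ ∑ i, w i = W

/-- The numbers of points. -/
def Range (n : ℕ) : Prop := 17 ≤ n ∧ n ≤ 35 ∧ n ≠ 25 ∨ ∃ j, n = 20 * 4 ^ j

/-- The window of the starting library. -/
def Open (n W d : ℕ) : Prop :=
  -(min (√(n : ℝ) - 3) (2 / 3 + 9 / (4 * √(n : ℝ)))) ≤ 2 * (d : ℝ) + 3 - √(n : ℝ) - 2 * W / √(n : ℝ) ∧
    2 * (d : ℝ) + 3 - √(n : ℝ) - 2 * W / √(n : ℝ) ≤ min (√(n : ℝ) - 3) (2 / 3 + 1 / (4 * √(n : ℝ)))

/-- No degree is left open. -/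
def Closed (n d : ℕ) : Prop :=
  (∃ j, n = 20 * 4 ^ j) ∨ (n = 18 ∧ 2 ≤ d % 4) ∨ (n = 27 ∧ 3 ≤ d % 5) ∨ (n = 29 ∧ d % 5 ≠ 1)

/-- The modulus. -/
def modulus (n : ℕ) : ℕ := if n < 25 then 4 else 5

/-- The lower end of the window. -/
noncomputable def low (n d : ℕ) : ℝ :=
  if n < 25 then (if d % 4 = 0 then 1 / 2 - 1 / √(n : ℝ) else if d % 4 = 1 then 3 / 7 else 1 / 2)
  else if d % 5 = 0 then 1 - 1 / √(n : ℝ) else if d % 5 = 1 then 1 - 2 / √(n : ℝ)
  else if d % 5 = 2 then 18 / 19 else 1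

open Classical in
/-- The upper end of the window; it is `low - 1`, so that the window is empty, if `Closed`. -/
noncomputable def high (n d : ℕ) : ℝ :=
  if Closed n d then low n d - 1 else if n < 25 then √(n : ℝ) - 7 / 2 else √(n : ℝ) - 4

/-- The degrees which may be left open for the vectors `m`, `m + 1` of sum `W`. -/
def Gap (n W d : ℕ) : Prop :=
  Open n W d ∧ low n d ≤ (d : ℝ) - W / √(n : ℝ) ∧ (d : ℝ) - W / √(n : ℝ) ≤ high n d ∧
    ¬ (n = 21 ∧ 3 ∣ W) ∧ ¬ (n = 24 ∧ 2 ∣ W) ∧ ¬ (n = 29 ∧ 29 ∣ W)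

/-- The proportion: the lengths of the windows of the classes of `d`, added and divided by the modulus. -/
noncomputable def rho (n : ℕ) : ℝ :=
  ∑ c ∈ Finset.range (modulus n),
    max 0 (min (high n c) ((√(n : ℝ) - 3) / 2 + min (√(n : ℝ) - 3) (2 / 3 + 1 / (4 * √(n : ℝ))) / 2) -
      max (low n c) ((√(n : ℝ) - 3) / 2 - min (√(n : ℝ) - 3) (2 / 3 + 9 / (4 * √(n : ℝ))) / 2)) / (modulus n)

theorem imposes_of {n : ℕ} {P : Fin n → Fin 2 → ℂ} {d : ℕ} {w : Fin n → ℕ}
    (h : Pool.Agent.H932R3.ExpDim ℂ w P d) : Imposes P d w := by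
  unfold Pool.Agent.H932R3.ExpDim at h
  unfold Imposes forms
  rw [h]
  have e : ∑ i, ((w i + 1).choose 2 : ℤ) = ((∑ i, (w i + 1).choose 2 : ℕ) : ℤ) := by
    push_cast
    rfl
  rw [e]
  omega

theorem generally_of {n : ℕ} {D : Set ℕ} {w : Fin n → ℕ}
    (h : ∃ F : MvPolynomial (Fin n × Fin 2) ℚ, F ≠ 0 ∧ ∀ P : Fin n → Fin 2 → ℂ,
      aeval (fun ij : Fin n × Fin 2 => P ij.1 ij.2) F ≠ 0 → ∀ d ∈ D, Pool.Agent.H932R3.ExpDim ℂ w P d) :
    Generally w D := by
  obtain ⟨F, hF, hF'⟩ := h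
  refine ⟨⟨F.map (algebraMap ℚ ℂ), Pool.Agent.H932R3.map_ne_zero_of hF, fun P hP d hd => ?_⟩,
    fun P hP d hd => imposes_of (hF' P (Pool.Agent.L7h88.VG.ne_of_indep hP hF) d hd)⟩
  rw [MvPolynomial.eval_map] at hP
  exact imposes_of (hF' P hP d hd)

theorem open_unique {n W d d' : ℕ} (hn : 10 ≤ n) (h : Open n W d) (h' : Open n W d') : d = d' := by
  obtain ⟨g1, g2, g3⟩ := Pool.Agent.TH885.NW.win_len hn
  unfold Pool.Agent.TH885.NW.loW Pool.Agent.TH885.NW.upW at g3
  obtain ⟨a1, a2⟩ := h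
  obtain ⟨b1, b2⟩ := h'
  have c1 : (d : ℝ) < d' + 1 := by linarith
  have c2 : (d' : ℝ) < d + 1 := by linarith
  have c3 : d < d' + 1 := by exact_mod_cast c1
  have c4 : d' < d + 1 := by exact_mod_cast c2
  omega

theorem low_mod (n d : ℕ) : low n (d % modulus n) = low n d := by
  unfold low modulus
  by_cases h : n < 25
  · rw [if_pos h, if_pos h, if_pos h, Nat.mod_mod]
  · rw [if_neg h, if_neg h, if_neg h, Nat.mod_mod]

theorem closed_mod (n d : ℕ) : Closed n (d % modulus n) ↔ Closed n d := by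
  unfold Closed modulus
  refine or_congr_right ?_
  by_cases h : n < 25
  · rw [if_pos h, Nat.mod_mod]
    omega
  · rw [if_neg h, Nat.mod_mod]
    omega

theorem high_mod (n d : ℕ) : high n (d % modulus n) = high n d := by
  unfold high
  rw [low_mod]
  by_cases h : Closed n d
  · rw [if_pos h, if_pos ((closed_mod n d).2 h)]
  · rw [if_neg h, if_neg fun g => h ((closed_mod n d).1 g)]

theorem not_closed {n W d : ℕ} (h : Closed n d) : ¬ Gap n W d := by
  rintro ⟨-, h1, h2, -⟩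
  unfold high at h2
  rw [if_pos h] at h2
  linarith

theorem range_ge {n : ℕ} (h : Range n) : 17 ≤ n ∧ n ≠ 25 := by
  rcases h with h | ⟨j, hj⟩
  · exact ⟨h.1, h.2.2⟩
  · rcases Nat.eq_zero_or_pos j with h0 | h0
    · subst h0
      omega
    · have h1 : 4 ^ 1 ≤ 4 ^ j := Nat.pow_le_pow_right (by norm_num) h0
      omega

theorem nsq {n : ℕ} (h : Range n) : ¬ IsSquare n := by
  rintro ⟨k, hk⟩
  rcases h with h | ⟨j, hj⟩
  · have h1 : k ≤ 5 := by
      by_contra hcon
      have : 6 * 6 ≤ k * k := Nat.mul_le_mul (by omega) (by omega)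
      omega
    interval_cases k <;> omega
  · have h1 : (2 ^ j) ^ 2 ∣ k ^ 2 := by
      refine ⟨20, ?_⟩
      rw [pow_two k, ← hk, hj, ← pow_mul, mul_comm j 2, pow_mul, mul_comm]
      norm_num
    obtain ⟨s, hs⟩ := (Nat.pow_dvd_pow_iff (by norm_num : (2 : ℕ) ≠ 0)).1 h1
    have h2 : 4 ^ j * (s * s) = 4 ^ j * 20 := by
      have h3 : (4 : ℕ) ^ j = 2 ^ j * 2 ^ j := by
        rw [← mul_pow]
        norm_num
      rw [mul_comm (4 ^ j) 20, ← hj, hk, hs, h3]
      ring
    have h4 : s * s = 20 := Nat.eq_of_mul_eq_mul_left (pow_pos (by norm_num) j) h2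
    have h5 : s ≤ 4 := by
      by_contra hcon
      have : 5 * 5 ≤ s * s := Nat.mul_le_mul (by omega) (by omega)
      omega
    interval_cases s <;> omega

/-- the number of `m + 1` -/
theorem sum_near {n m W : ℕ} {w : Fin n → ℕ} (hw : ∀ i, w i = m ∨ w i = m + 1) (hW : ∑ i, w i = W) :
    W = n * m + (Finset.univ.filter fun i => w i = m + 1).card := by
  have h1 : ∀ i, w i = m + if w i = m + 1 then 1 else 0 := by
    intro i
    rcases hw i with h | h
    · rw [if_neg (by omega), h]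
      rfl
    · rw [if_pos h, h]
  rw [← hW, Finset.sum_congr rfl fun i _ => h1 i, Finset.sum_add_distrib, Finset.sum_const,
    Finset.card_univ, Fintype.card_fin, smul_eq_mul, Finset.sum_boole]
  rfl

theorem near_all {n W : ℕ} (hn : Range n) {w : Fin n → ℕ} (hw : Near W w) :
    Generally w {d | ¬ Gap n W d} := by
  obtain ⟨⟨m, hm, hw⟩, hW⟩ := hw
  have hcard : (Finset.univ : Finset (Fin n)).card = n := by simp
  have key : (∃ k, n = 20 * 4 ^ k) ∨ (n = 24 ∧ 2 ∣ W) ∨ (n = 29 ∧ 29 ∣ W) →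
      Generally w {d | ¬ Gap n W d} := by
    intro hc
    have hs := sum_near hw hW
    by_cases h29 : n = 29 ∧ 29 ∣ W
    · obtain ⟨h29, h2⟩ := h29
      have h3 : (Finset.univ.filter fun i => w i = m + 1).card ≤ n := by
        have := Finset.card_filter_le (Finset.univ : Finset (Fin n)) fun i => w i = m + 1
        rwa [hcard] at this
      have h4 : (Finset.univ.filter fun i => w i = m + 1).card = 0 ∨
          (Finset.univ.filter fun i => w i = m + 1).card = n := by
        subst h29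
        omega
      rcases h4 with h4 | h4
      · have h5 : ∀ i, w i = m := by
          intro i
          rcases hw i with h | h
          · exact h
          · exfalso
            have : i ∈ Finset.univ.filter fun i => w i = m + 1 := by simp [h]
            rw [Finset.card_eq_zero] at h4
            rw [h4] at this
            simp at this
        obtain ⟨F, hF, hF'⟩ := Pool.Agent.L7h43.NU.expReg hm (S := Finset.univ) hcard (fun i _ => hw i)
          (fun i hi => absurd (Finset.mem_univ i) hi) (Or.inr (Or.inr ⟨h29, fun i _ => h5 i⟩))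
        exact generally_of ⟨F, hF, fun P hP d _ => hF' P hP d⟩
      · have h5 : ∀ i, w i = m + 1 := by
          intro i
          have h6 : (Finset.univ.filter fun i => w i = m + 1) = Finset.univ :=
            Finset.eq_univ_of_card _ (by rw [h4, Fintype.card_fin])
          have : i ∈ Finset.univ.filter fun i => w i = m + 1 := by rw [h6]; exact Finset.mem_univ i
          exact (Finset.mem_filter.1 this).2
        obtain ⟨F, hF, hF'⟩ := Pool.Agent.L7h43.NU.expReg (m := m + 1) (by omega) (S := Finset.univ) hcard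
          (fun i _ => Or.inl (h5 i)) (fun i hi => absurd (Finset.mem_univ i) hi)
          (Or.inr (Or.inr ⟨h29, fun i _ => h5 i⟩))
        exact generally_of ⟨F, hF, fun P hP d _ => hF' P hP d⟩
    · obtain ⟨F, hF, hF'⟩ := Pool.Agent.L7h43.NU.expReg hm (S := Finset.univ) hcard (fun i _ => hw i)
        (fun i hi => absurd (Finset.mem_univ i) hi) (by
          rcases hc with hc | ⟨h1, h2⟩ | h2
          · exact Or.inl hc
          · refine Or.inr (Or.inl ⟨h1, ?_⟩)
            subst h1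
            omega
          · exact absurd h2 h29)
      exact generally_of ⟨F, hF, fun P hP d _ => hF' P hP d⟩
  by_cases h0 : (∃ k, n = 20 * 4 ^ k) ∨ (n = 24 ∧ 2 ∣ W) ∨ (n = 29 ∧ 29 ∣ W)
  · exact key h0
  by_cases h21 : n = 21 ∧ 3 ∣ W
  · obtain ⟨h21, h3⟩ := h21
    subst h21
    have hs := sum_near hw hW
    obtain ⟨F, hF, hF'⟩ := Pool.Agent.TH469.SX.twentyone_near hw (by omega)
    exact generally_of ⟨F, hF, fun P hP d _ => hF' P hP d⟩
  obtain ⟨h20, h24, h29⟩ : (¬ ∃ k, n = 20 * 4 ^ k) ∧ ¬ (n = 24 ∧ 2 ∣ W) ∧ ¬ (n = 29 ∧ 29 ∣ W) :=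
    ⟨fun g => h0 (Or.inl g), fun g => h0 (Or.inr (Or.inl g)), fun g => h0 (Or.inr (Or.inr g))⟩
  obtain ⟨h17, h25⟩ := range_ge hn
  obtain ⟨F, hF, hF'⟩ := Pool.Agent.L7h52.AM.expN (L := ℂ) h17 h25 hm hw hW
  obtain ⟨G, hG, hG'⟩ := Pool.Agent.L7h43.NU.expRes (S := Finset.univ) hcard (fun i _ => hw i)
    (fun i hi => absurd (Finset.mem_univ i) hi)
  refine generally_of ⟨F * G, mul_ne_zero hF hG, fun P hP d hd => ?_⟩
  rw [map_mul] at hP
  by_cases hc : Closed n d
  · refine hG' P (right_ne_zero_of_mul hP) d ?_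
    rcases hc with h | h | h | h
    · exact absurd h h20
    · exact Or.inl h
    · exact Or.inr (Or.inl h)
    · exact Or.inr (Or.inr h)
  · refine hF' P (left_ne_zero_of_mul hP) d fun h => hd ⟨h.1, h.2.1, ?_, h21, h24, h29⟩
    unfold high
    rw [if_neg hc]
    exact h.2.2

/-- **Main result.** -/
theorem result :
    (∀ n W : ℕ, Range n → {d | Gap n W d}.Subsingleton ∧
      ∀ w : Fin n → ℕ, Near W w → Generally w {d | ¬ Gap n W d}) ∧
    (∀ j W d : ℕ, ¬ Gap (20 * 4 ^ j) W d ∧ ¬ Gap 21 (3 * W) d ∧ ¬ Gap 24 (2 * W) d ∧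
      ¬ Gap 29 (29 * W) d) ∧
    ∀ (n : ℕ) (ε : ℝ), Range n → 0 < ε → ∃ M₀ : ℕ, ∀ M : ℕ, M₀ ≤ M →
      (Set.ncard {W : ℕ | W < M ∧ ∃ d, Gap n W d} : ℝ) ≤ (rho n + ε) * M := by
  refine ⟨fun n W hn => ⟨fun d hd d' hd' => open_unique ?_ hd.1 hd'.1, fun w hw => near_all hn hw⟩,
    fun j W d => ⟨not_closed (Or.inl ⟨j, rfl⟩),
      fun h => h.2.2.2.1 ⟨rfl, Dvd.intro _ rfl⟩, fun h => h.2.2.2.2.1 ⟨rfl, Dvd.intro _ rfl⟩,
      fun h => h.2.2.2.2.2 ⟨rfl, Dvd.intro _ rfl⟩⟩,
    fun n ε hn hε => ?_⟩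
  · have := (range_ge hn).1
    omega
  · have hmod : 0 < modulus n := by unfold modulus; split_ifs <;> norm_num
    refine Pool.Agent.L7h52.AM.cntW (nsq hn) hmod (Q := Gap n)
      (lo := fun c => max (low n c)
        ((√(n : ℝ) - 3) / 2 - min (√(n : ℝ) - 3) (2 / 3 + 9 / (4 * √(n : ℝ))) / 2))
      (hi := fun c => min (high n c)
        ((√(n : ℝ) - 3) / 2 + min (√(n : ℝ) - 3) (2 / 3 + 1 / (4 * √(n : ℝ))) / 2)) ?_ hε
    rintro W d ⟨⟨k1, k2⟩, k3, k4, -⟩
    rw [low_mod, high_mod]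
    have e : 2 * (W : ℝ) / √(n : ℝ) = 2 * (W / √(n : ℝ)) := by ring
    rw [e] at k1 k2
    exact ⟨max_le k3 (by linarith), le_min k4 (by linarith)⟩

end Pool.Agent.Results.MP_1dafdd_ag.PlaneSeventeenToThirtyFive
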