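import Pool.Agent.L7h91.TWS.Fin4

set_option autoImplicit false

/-!
# `k ≥ 2 ^ r + r + 1` general fat points of arbitrary multiplicities in projective space of dimension `r`

Let `r ≥ 3` and `k ≥ 2 ^ r + r + 1` (for `r ≥ 6` also `k = 2 ^ r + r` is allowed), and let `m 1, …, m k` be
arbitrary. For `k` general points of `ℙ^r` (one nonempty Zariski open set for all degrees `d`):

* if `k ^ ((r - 1) / r) * d < ∑ m i`, then no nonzero form of degree `d` vanishes to order at least
  `m i` at the `i`-th point for all `i`, and the fat point scheme imposes maximal conditions; the same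
  holds if an inequality of this kind is satisfied for some subset of the points;
* if `k ^ (1 / r) * (m i + r - 1) + r + 1 / 2 ≤ d` for all `i`, then the fat point scheme imposes
  independent (hence maximal) conditions in degree `d`.

For equal multiplicities `m` the scheme can fail to impose maximal conditions only in degrees `d` with
`k ^ (1 / r) * m ≤ d < k ^ (1 / r) * (m + r - 1) + r + 1 / 2`, a window whose length does not
depend on `m`. The result `WindowEveryDimension` has this for `k ≥ 3 ^ r`; here the range
`2 ^ r + r + 1 ≤ k < 3 ^ r` is new. The first statement is false for `r = 3`, `k = 9` (there is a quadric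
through nine points); for the few numbers `2 ^ r < k ≤ 2 ^ r + r` see `NearSharpTwoPower`.

The proof passes from forms of degree `d` to Laurent polynomials with exponents in a simplex, which
is transformed step by step until all its slopes are `k`. We begin with a smooth conic in one coordinate
plane (a cubic would need `k ≥ 3 ^ r`) and go on with nodal cubics in the others. In the last
step the points move to the neighbourhood of an elliptic curve with multiplicative reduction (a Tate
curve) in the space of three coordinates; the third coordinate is a function with a pole at a further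
point of the curve, whose position is a second real parameter of the step. It is used to solve the two
integrality conditions at the end. For the independence we construct, for every monomial of the new
simplex, a polynomial with this leading monomial: such polynomials are found by counting the
dimensions in a filtration by the order of vanishing along the curve.
-/

namespace Pool.Agent.Results.MP_1dafdd_ag.TwoPowerWindow

open MvPolynomial
open scoped LinearAlgebra.Projectivization
open Pool.Agent.H350R3.MG

/-- `V_d(Γ)`: the forms of degree `d` vanishing to order at least `m i` at the `i`-th point. -/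
noncomputable def forms {r k : ℕ} (d : ℕ) (m : Fin k → ℕ) (P : Fin k → ℙ ℂ (Fin (r + 1) → ℂ)) :
    Submodule ℂ (MvPolynomial (Fin (r + 1)) ℂ) :=
  homogeneousSubmodule (Fin (r + 1)) ℂ d ⊓
    Submodule.restrictScalars ℂ (⨅ i, primeIdeal (P i) ^ m i : Ideal (MvPolynomial (Fin (r + 1)) ℂ))

/-- The naive count `binom (d + r) r - ∑ i, binom (m i + r - 1) r`. -/
def naive (r : ℕ) {k : ℕ} (d : ℕ) (m : Fin k → ℕ) : ℤ :=
  ((d + r).choose r : ℤ) - ∑ i, ((m i + r - 1).choose r : ℤ)

/-- `Γ` imposes maximal conditions in degree `d`. -/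
def ImposesMaximalConditions {r k : ℕ} (d : ℕ) (m : Fin k → ℕ)
    (P : Fin k → ℙ ℂ (Fin (r + 1) → ℂ)) : Prop :=
  (Module.finrank ℂ (forms d m P) : ℤ) = max 0 (naive r d m)

/-- The allowed numbers of points: at least `2 ^ r + r + 1`, or at least `2 ^ r + r` if `r ≥ 6`. -/
def Many (r j : ℕ) : Prop := 2 ^ r + r + 1 ≤ j ∨ 6 ≤ r ∧ 2 ^ r + r ≤ j

/-- For `r ≥ 3`, arbitrary multiplicities and `k` general points of `ℙ^r`, for every `d`: there are no
forms, and the conditions are maximal, if `|J| ^ ((r - 1) / r) * d < ∑_{i ∈ J} m i` for some set `J` of at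
least `2 ^ r + r + 1` of the points; for `k ≥ 2 ^ r + r + 1` the conditions are independent if
`k ^ (1 / r) * (m i + r - 1) + r + 1 / 2 ≤ d` for all `i`; in particular, if all the `m i` are equal to
`M`, then the conditions are maximal outside the window
`k ^ (1 / r) * M ≤ d < k ^ (1 / r) * (M + r - 1) + r + 1 / 2`. -/
theorem result (r k : ℕ) (hr : 3 ≤ r) (m : Fin k → ℕ) :
    Generally (fun P : Fin k → ℙ ℂ (Fin (r + 1) → ℂ) => ∀ d : ℕ,
      ((∃ J : Finset (Fin k), Many r J.card ∧
          (J.card : ℝ) ^ (((r : ℝ) - 1) / r) * d < ∑ i ∈ J, (m i : ℝ)) →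
        forms d m P = ⊥ ∧ ImposesMaximalConditions d m P) ∧
      (Many r k → (∀ i, (k : ℝ) ^ (1 / (r : ℝ)) * ((m i : ℝ) + r - 1) + r + 1 / 2 ≤ d) →
        (Module.finrank ℂ (forms d m P) : ℤ) = naive r d m ∧ ImposesMaximalConditions d m P) ∧
      (Many r k → ∀ M : ℕ, (∀ i, m i = M) → ¬ ImposesMaximalConditions d m P →
        (k : ℝ) ^ (1 / (r : ℝ)) * M ≤ d ∧
          (d : ℝ) < (k : ℝ) ^ (1 / (r : ℝ)) * ((M : ℝ) + r - 1) + r + 1 / 2)) := by
  obtain ⟨U, hU, hU', h⟩ := L7h91.TW.main7 hr m
  refine ⟨U, hU, hU', fun P hP d => ?_⟩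
  obtain ⟨h1, h2⟩ := h P hP d
  have e : ∑ i, ((m i + r - 1).choose r : ℤ) = ((∑ i, (m i + r - 1).choose r : ℕ) : ℤ) := by
    push_cast
    rfl
  have c1 : (∃ J : Finset (Fin k), Many r J.card ∧
      (J.card : ℝ) ^ (((r : ℝ) - 1) / r) * d < ∑ i ∈ J, (m i : ℝ)) →
      forms d m P = ⊥ ∧ ImposesMaximalConditions d m P := by
    intro hd
    obtain ⟨h3, h4⟩ := h1 hd
    have h5 : forms d m P = ⊥ := h3
    refine ⟨h5, ?_⟩
    unfold ImposesMaximalConditions naive
    rw [h5, finrank_bot, e]
    omega
  have c2 : Many r k → (∀ i, (k : ℝ) ^ (1 / (r : ℝ)) * ((m i : ℝ) + r - 1) + r + 1 / 2 ≤ d) →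
      (Module.finrank ℂ (forms d m P) : ℤ) = naive r d m ∧ ImposesMaximalConditions d m P := by
    intro hk hd
    have h3 : ∑ i, (m i + r - 1).choose r + Module.finrank ℂ ↥(forms d m P) =
        (d + r).choose r := h2 hk hd
    unfold ImposesMaximalConditions naive
    rw [e]
    omega
  refine ⟨c1, c2, fun hk M hM hn => ⟨?_, ?_⟩⟩
  · by_contra hcon
    push Not at hcon
    apply hn
    refine (c1 ⟨Finset.univ, by rw [Finset.card_fin]; exact hk, ?_⟩).2
    have hk0 : (0 : ℝ) < k := by
      have h3 : 0 < 2 ^ r := by positivity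
      have : 0 < k := by
        rcases hk with hk | hk <;> omega
      exact_mod_cast this
    have hr0 : (0 : ℝ) < r := by
      have : 0 < r := by omega
      exact_mod_cast this
    have e1 : (k : ℝ) ^ (((r : ℝ) - 1) / r) * (k : ℝ) ^ (1 / (r : ℝ)) = k := by
      rw [← Real.rpow_add hk0]
      have e2 : ((r : ℝ) - 1) / r + 1 / r = 1 := by
        field_simp
        ring
      rw [e2, Real.rpow_one]
    rw [Finset.card_fin]
    simp only [hM]
    rw [Finset.sum_const, Finset.card_fin, nsmul_eq_mul]
    calc (k : ℝ) ^ (((r : ℝ) - 1) / r) * d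
        < (k : ℝ) ^ (((r : ℝ) - 1) / r) * ((k : ℝ) ^ (1 / (r : ℝ)) * M) :=
          mul_lt_mul_of_pos_left hcon (Real.rpow_pos_of_pos hk0 _)
      _ = k * M := by rw [← mul_assoc, e1]
  · by_contra hcon
    push Not at hcon
    apply hn
    refine (c2 hk fun i => ?_).2
    rw [hM]
    exact hcon

end Pool.Agent.Results.MP_1dafdd_ag.TwoPowerWindow
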